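import Pool.Agent.W770.KP.Stm

/-! KP-LR: line maximal inequality from the chart version to all directions. -/

set_option autoImplicit false

open scoped Classical

namespace Pool.Agent.W469.KP

open Pool.Agent.W770.KP

theorem sum_le_of_cover {α β : Type} (s : Finset β) (T : Finset α) (f : α → β) (g : β → ℝ)
    (hg : ∀ v, 0 ≤ g v) (hs : ∀ v ∈ s, ∃ a ∈ T, f a = v) :
    ∑ v ∈ s, g v ≤ ∑ a ∈ T, g (f a) := by
  calc ∑ v ∈ s, g v ≤ ∑ v ∈ s, ∑ a ∈ T with f a = v, g (f a) := by
        apply Finset.sum_le_sum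
        intro v hv
        obtain ⟨a, ha, rfl⟩ := hs v hv
        exact Finset.single_le_sum (f := fun a => g (f a)) (fun i _ => hg _)
          (Finset.mem_filter.2 ⟨ha, rfl⟩)
    _ ≤ ∑ a ∈ T, g (f a) :=
        Finset.sum_fiberwise_le_sum_of_sum_fiber_nonneg
          (fun y _ => Finset.sum_nonneg (fun i _ => hg _))

theorem lr : S_LR := by
  intro m
  rintro ⟨C, hC, h⟩
  refine ⟨(m + 1) * C, by positivity, ?_⟩
  intro F E _ _ _ _ _ hfin g' hg' b
  have hfd : FiniteDimensional F E := Module.Finite.of_finite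
  obtain ⟨ψ⟩ : Nonempty (E ≃ₗ[F] (Fin (m+1) → F)) :=
    FiniteDimensional.nonempty_linearEquiv_of_finrank_eq (by simp [hfin])
  let Ψ : Fin (m+1) → (E ≃ₗ[F] (Fin (m+1) → F)) :=
    fun i => ψ.trans (LinearEquiv.funCongrLeft F F (Equiv.swap 0 i))
  have hΨ : ∀ i v, Ψ i v 0 = ψ v i := by
    intro i v
    simp [Ψ, LinearEquiv.funCongrLeft, LinearMap.funLeft]
  let S : Finset F := Finset.univ.filter (fun l : F => l ≠ 0)
  let T : Finset (Fin (m+1) × F × (Fin m → F)) := Finset.univ ×ˢ S ×ˢ Finset.univ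
  let f : Fin (m+1) × F × (Fin m → F) → E :=
    fun a => (Ψ a.1).symm (a.2.1 • (Fin.cons 1 a.2.2 : Fin (m+1) → F))
  let g : E → ℝ := fun v => (∑ t : F, g' (b v + t • v)) ^ (m + 1)
  have step1 : ∑ v ∈ (Finset.univ : Finset E).filter (fun v => v ≠ 0), g v
      ≤ ∑ a ∈ T, g (f a) := by
    apply sum_le_of_cover
    · intro v
      exact pow_nonneg (Finset.sum_nonneg (fun t _ => hg' _)) _
    · intro v hv
      have hv0 : v ≠ 0 := (Finset.mem_filter.1 hv).2
      have hψv : ψ v ≠ 0 := by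
        intro hc
        exact hv0 ((LinearEquiv.map_eq_zero_iff ψ).1 hc)
      obtain ⟨i, hi⟩ := Function.ne_iff.1 hψv
      have hi' : Ψ i v 0 ≠ 0 := by rw [hΨ]; exact hi
      refine ⟨(i, Ψ i v 0, fun j => Ψ i v j.succ / Ψ i v 0), ?_, ?_⟩
      · simp only [T, S, Finset.mem_product, Finset.mem_univ, true_and, and_true,
          Finset.mem_filter]
        exact hi'
      · show (Ψ i).symm _ = v
        rw [LinearEquiv.symm_apply_eq]
        funext j
        refine Fin.cases ?_ (fun j => ?_) j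
        · simp
        · simp only [Pi.smul_apply, Fin.cons_succ, smul_eq_mul]
          exact mul_div_cancel₀ _ hi'
  have step2 : ∀ i : Fin (m+1), ∀ l ∈ S, ∑ y : Fin m → F, g (f (i, l, y))
      ≤ C * (Fintype.card F : ℝ) ^ m * ∑ x : E, (g' x) ^ (m + 1) := by
    intro i l hl
    have hl0 : l ≠ 0 := (Finset.mem_filter.1 hl).2
    have hk := h F (fun x => g' ((Ψ i).symm x)) (fun x => hg' _)
      (fun y => Ψ i (b (f (i, l, y))))
    have e0 : ∑ x : Fin (m+1) → F, (g' ((Ψ i).symm x)) ^ (m + 1) = ∑ x : E, (g' x) ^ (m + 1) :=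
      Fintype.sum_equiv (Ψ i).symm.toEquiv _ _ (fun x => rfl)
    rw [e0] at hk
    have e1 : ∀ y : Fin m → F, g (f (i, l, y)) =
        (∑ t : F, g' ((Ψ i).symm (Ψ i (b (f (i, l, y))) + t • (Fin.cons 1 y : Fin (m+1) → F))))
          ^ (m + 1) := by
      intro y
      show (∑ t : F, g' (b (f (i, l, y)) + t • f (i, l, y))) ^ (m + 1) = _
      congr 1
      have e4 : f (i, l, y) = l • (Ψ i).symm (Fin.cons 1 y) := by
        show (Ψ i).symm (l • (Fin.cons 1 y : Fin (m+1) → F)) = _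
        rw [map_smul]
      have e5 : ∀ t : F, (Ψ i).symm (Ψ i (b (f (i, l, y))) + t • (Fin.cons 1 y : Fin (m+1) → F))
          = b (f (i, l, y)) + t • (Ψ i).symm (Fin.cons 1 y) := by
        intro t
        rw [map_add, map_smul, LinearEquiv.symm_apply_apply]
      simp only [e5]
      refine Fintype.sum_equiv (Equiv.mulRight₀ l hl0) _ _ (fun t => ?_)
      show g' (b (f (i, l, y)) + t • f (i, l, y)) =
        g' (b (f (i, l, y)) + (t * l) • (Ψ i).symm (Fin.cons 1 y))
      rw [mul_smul, ← e4]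
    rw [Finset.sum_congr rfl (fun y _ => e1 y)]
    exact hk
  have step3 : ∑ a ∈ T, g (f a) = ∑ i : Fin (m+1), ∑ l ∈ S, ∑ y : Fin m → F, g (f (i, l, y)) := by
    rw [Finset.sum_product]
    apply Finset.sum_congr rfl
    intro i _
    rw [Finset.sum_product]
  refine step1.trans ?_
  rw [step3]
  have hScard : (S.card : ℝ) ≤ (Fintype.card F : ℝ) := by
    exact_mod_cast Finset.card_le_univ S
  have hX : 0 ≤ ∑ x : E, (g' x) ^ (m + 1) :=
    Finset.sum_nonneg (fun x _ => pow_nonneg (hg' x) _)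
  calc ∑ i : Fin (m+1), ∑ l ∈ S, ∑ y : Fin m → F, g (f (i, l, y))
      ≤ ∑ i : Fin (m+1), ∑ l ∈ S, C * (Fintype.card F : ℝ) ^ m * ∑ x : E, (g' x) ^ (m + 1) :=
        Finset.sum_le_sum (fun i _ => Finset.sum_le_sum (fun l hl => step2 i l hl))
    _ = (m + 1) * ((S.card : ℝ) * (C * (Fintype.card F : ℝ) ^ m *
          ∑ x : E, (g' x) ^ (m + 1))) := by
        rw [Finset.sum_const, Finset.sum_const, Finset.card_univ, Fintype.card_fin]
        simp only [nsmul_eq_mul]
        push_cast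
        ring
    _ ≤ (m + 1) * ((Fintype.card F : ℝ) * (C * (Fintype.card F : ℝ) ^ m *
          ∑ x : E, (g' x) ^ (m + 1))) := by
        gcongr
    _ = (m + 1) * C * (Fintype.card F : ℝ) ^ (m + 1) * ∑ x : E, (g' x) ^ (m + 1) := by ring

end Pool.Agent.W469.KP
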